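import Pool.Agent.helper36.UT.Spec

/-!
# Row EPV of project UT
-/

set_option autoImplicit false

open Filter Polynomial FirstOrder FirstOrder.Language

namespace Pool.Agent.UnivT

theorem EPV_mod (p : ℕ) (hp : 0 < p) (r e : ℤ) (he : 0 ≤ e) (h : e % (p : ℤ) = r) :
    e.toNat % p = r.toNat % p := by
  have hp' : (0 : ℤ) < (p : ℤ) := by exact_mod_cast hp
  have hr : 0 ≤ r := by rw [← h]; exact Int.emod_nonneg _ (ne_of_gt hp')
  have h1 : ((e.toNat % p : ℕ) : ℤ) = ((r.toNat % p : ℕ) : ℤ) := by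
    rw [Int.natCast_mod, Int.natCast_mod, Int.toNat_of_nonneg he, Int.toNat_of_nonneg hr, ← h,
      Int.emod_emod_of_dvd e (dvd_refl (p : ℤ))]
  exact_mod_cast h1

theorem EPV (hLGD : LGD_stmt) (hEPC : EPC_stmt) (hMDL : MDL_stmt) (hAFF : AFF_stmt) (hPOW : POW_stmt) :
    EPV_stmt := by
  intro k s E hs hE htop
  have _ := hLGD
  obtain ⟨p, hp, hP⟩ := hEPC s hs
  obtain ⟨r, hr⟩ := hMDL k E hE p hp
  obtain ⟨a, b, c, d, A, hA⟩ := hP r.toNat
  have hlarge : ∀ᶠ H : ℕ in atTop, (A : ℤ) ≤ E H := htop.eventually_ge_atTop (A : ℤ)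
  have key : ∀ᶠ H : ℕ in atTop, (val s (E H).toNat : ℚ) = a + b * 2 ^ (E H).toNat ∧
      (cnt s (E H).toNat : ℚ) = c + d * (E H : ℚ) := by
    filter_upwards [hr, hlarge] with H h1 h2
    have h0 : 0 ≤ E H := le_trans (Int.natCast_nonneg A) h2
    have h3 : A ≤ (E H).toNat := by omega
    have h4 := hA (E H).toNat h3 (EPV_mod p hp r (E H) h0 h1)
    refine ⟨h4.1, ?_⟩
    have h5 : (((E H).toNat : ℕ) : ℚ) = (E H : ℚ) := by
      have h6 : (((E H).toNat : ℕ) : ℤ) = E H := Int.toNat_of_nonneg h0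
      calc (((E H).toNat : ℕ) : ℚ) = ((((E H).toNat : ℕ) : ℤ) : ℚ) := by push_cast; rfl
        _ = (E H : ℚ) := by rw [h6]
    rw [← h5]
    exact h4.2
  constructor
  · refine hAFF (k + 1) (fun H => (2 : ℤ) ^ (E H).toNat) _ b a (hPOW k E hE) ?_
    filter_upwards [key] with H h
    rw [h.1]
    push_cast
    ring
  · refine hAFF k E _ d c hE ?_
    filter_upwards [key] with H h
    rw [h.2]
    ring

end Pool.Agent.UnivT
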