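import Pool.Agent.helper36.UT.Spec

/-!
# Row LNG of project UT
-/

set_option autoImplicit false

open Filter Polynomial FirstOrder FirstOrder.Language

namespace Pool.Agent.UnivT

theorem LNG_mono (hLSU : LSU_stmt) (f : ℕ → ℤ) (k m : ℕ) (h : k ≤ m) (hf : Lev k f) : Lev m f := by
  induction h with
  | refl => exact hf
  | step _ ih => exact hLSU _ _ ih

theorem LNG_common (hLSU : LSU_stmt) (f g : ℕ → ℤ) (hf : RR f) (hg : RR g) :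
    ∃ k, Lev k f ∧ Lev k g := by
  obtain ⟨k, hk⟩ := hf
  obtain ⟨m, hm⟩ := hg
  exact ⟨max k m, LNG_mono hLSU f k _ (le_max_left _ _) hk, LNG_mono hLSU g m _ (le_max_right _ _) hm⟩

theorem LNG_std (hLGD : LGD_stmt) (k : ℕ) (q : ℚ) (l : List (ℚ × (ℕ → ℤ))) (f : ℕ → ℤ)
    (h : Std k q l f) : Lev (k + 1) f := by
  refine ⟨(q, fun _ => 0) :: l, ?_, ?_⟩
  · intro x hx
    rcases List.mem_cons.1 hx with h1 | h1
    · rw [h1]
      exact (hLGD k).1 0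
    · exact (h.1 x h1).1
  · filter_upwards [h.2.2] with H hH
    rw [hH, ev_cons]
    simp

theorem LNG_shift (hLGD : LGD_stmt) (hLSU : LSU_stmt) (hDVC : DVC_stmt) (hSTD : STD_stmt)
    (hSHR : SHR_stmt) (f E : ℕ → ℤ) (hf : RR f) (hE : RR E) :
    RR fun H => f H / 2 ^ (E H).toNat := by
  obtain ⟨k, h1, h2⟩ := LNG_common hLSU f E hf hE
  rcases (hLGD k).2.2.2 E h2 with ⟨c, hc⟩ | htop | hbot
  · refine ⟨k, (hLGD k).2.2.1 _ _ (hDVC k f (2 ^ c.toNat) h1) ?_⟩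
    filter_upwards [hc] with H hH
    rw [hH]
    push_cast
    rfl
  · obtain ⟨q, l, hs⟩ := hSTD k f (hLSU k f h1)
    obtain ⟨q', l', hs', -⟩ := hSHR k q l f E hs h2 htop
    exact ⟨k + 1, LNG_std hLGD k q' l' _ hs'⟩
  · refine ⟨k, (hLGD k).2.2.1 _ _ h1 ?_⟩
    filter_upwards [hbot.eventually_le_atBot 0] with H hH
    have h3 : (E H).toNat = 0 := by omega
    rw [h3]
    simp

theorem LNG (hLGD : LGD_stmt) (hLSU : LSU_stmt) (hAFF : AFF_stmt) (hMUL : MUL_stmt) (hPOW : POW_stmt)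
    (hITE : ITE_stmt) (hDVC : DVC_stmt) (hSTD : STD_stmt) (hSHR : SHR_stmt) (hLEN : LEN_stmt)
    (hPPL : PPL_stmt) (hBWL : BWL_stmt) : LNG_stmt := by
  intro n F g hg
  cases F with
  | zero => exact ⟨0, (hLGD 0).1 0⟩
  | one => exact ⟨0, (hLGD 0).1 1⟩
  | neg =>
    obtain ⟨k, hk⟩ := hg 0
    refine ⟨k, hAFF k (g 0) _ (-1) 0 hk (Eventually.of_forall fun H => ?_)⟩
    simp [fnInt]
  | pow2 =>
    obtain ⟨k, hk⟩ := hg 0
    exact ⟨k + 1, hPOW k (g 0) hk⟩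
  | length =>
    obtain ⟨k, hk⟩ := hg 0
    exact ⟨k + 1, hLEN k (g 0) (hLSU k _ hk)⟩
  | digitSum =>
    obtain ⟨k, hk⟩ := hg 0
    exact ⟨k + 1, hPPL k (g 0) (hLSU k _ hk)⟩
  | quot c =>
    obtain ⟨k, hk⟩ := hg 0
    exact ⟨k, hDVC k (g 0) c hk⟩
  | add =>
    obtain ⟨k, h1, h2⟩ := LNG_common hLSU _ _ (hg 0) (hg 1)
    have h3 : Lev k fun H => (fun _ : ℕ => (0 : ℤ)) H - g 1 H := (hLGD k).2.1 _ _ ((hLGD k).1 0) h2
    refine ⟨k, (hLGD k).2.2.1 _ _ ((hLGD k).2.1 _ _ h1 h3) (Eventually.of_forall fun H => ?_)⟩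
    simp [fnInt]
  | mul =>
    obtain ⟨k, h1, h2⟩ := LNG_common hLSU _ _ (hg 0) (hg 1)
    exact ⟨k + 1, hMUL k _ _ (hLSU k _ h1) (hLSU k _ h2)⟩
  | shift => exact LNG_shift hLGD hLSU hDVC hSTD hSHR _ _ (hg 0) (hg 1)
  | bitwise β =>
    obtain ⟨k, h1, h2⟩ := LNG_common hLSU _ _ (hg 0) (hg 1)
    exact ⟨k + 1, hBWL k β _ _ (hLSU k _ h1) (hLSU k _ h2)⟩
  | ite => exact hITE _ _ _ (hg 0) (hg 1) (hg 2)

end Pool.Agent.UnivT
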