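import Pool.Agent.helper36.UT.Spec

/-!
# Row SIG of project UT
-/

set_option autoImplicit false

open Filter Polynomial FirstOrder FirstOrder.Language

namespace Pool.Agent.UnivT

theorem SIG (hNRM : NRM_stmt) (hDOM : DOM_stmt) : SIG_stmt := by
  intro C hC l hl
  obtain ⟨l', hNF, -, hev⟩ := hNRM C hC l hl
  cases l' with
  | nil =>
    left
    filter_upwards [hev] with H hH
    rw [hH, ev_nil]
  | cons x m =>
    have hx : x.1 ≠ 0 := hNF.2 x (by simp)
    have hfar : ∀ y ∈ m, Far x y := (List.pairwise_cons.1 hNF.1).1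
    have hd := hDOM x m hfar (|x.1| / 2) (by positivity)
    right
    rcases lt_or_gt_of_ne hx with h | h
    · right
      filter_upwards [hev, hd] with H h1 h2
      rw [h1, ev_cons]
      have h3 : (0 : ℚ) < (2 : ℚ) ^ (x.2 H) := by positivity
      rw [abs_of_neg h] at h2
      have h4 := (abs_le.1 h2).2
      nlinarith
    · left
      filter_upwards [hev, hd] with H h1 h2
      rw [h1, ev_cons]
      have h3 : (0 : ℚ) < (2 : ℚ) ^ (x.2 H) := by positivity
      rw [abs_of_pos h] at h2
      have h4 := (abs_le.1 h2).1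
      nlinarith

end Pool.Agent.UnivT
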